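import Mathlib

/-!
Module M2 of the project on MP_70580c_co: choice of the apex.
-/

namespace Pool.Agent.H4.Dol

/-- the polynomial core of (3b) -/
lemma core3b (n z W : ℝ) (hn : 1 < n) (hz0 : 0 < z) (hzn : z < n) (h1 : W * (n + 1) < 4)
    (h2 : W * (n + 1) < 2 + (n - 1) * z) (hA : 2 * (n + z) ≤ W * (3 * n - z))
    (hB : (n + z) * (1 + z) ≤ W * (n + (2 * n - 1) * z)) : False := by
  have hq1 : 0 < 3 * n - z := by linarith
  have hq2 : 0 < n + (2 * n - 1) * z := by nlinarith
  have hn1 : 0 < n + 1 := by linarith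
  -- D
  have hD : n * (n - 1) + (3 - n) * z + 2 * n * (2 - n) * z ^ 2 < 0 := by
    have e1 := mul_le_mul_of_nonneg_right hB hn1.le
    have e2 := mul_lt_mul_of_pos_right h2 hq2
    nlinarith
  have hM : n * (n - 3) + (n - 1) * (n - 5) * z + (n + 1) * z ^ 2 < 0 := by
    have e1 := mul_le_mul_of_nonneg_right hB hn1.le
    have e2 := mul_lt_mul_of_pos_right h1 hq2
    nlinarith
  have hN1 : n * (n - 5) + z * (n + 3) < 0 := by
    have e1 := mul_le_mul_of_nonneg_right hA hn1.le
    have e2 := mul_lt_mul_of_pos_right h1 hq1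
    nlinarith
  have hN2 : 2 * n * (n - 2) + (4 + 5 * n - 3 * n ^ 2) * z + (n - 1) * z ^ 2 < 0 := by
    have e1 := mul_le_mul_of_nonneg_right hA hn1.le
    have e2 := mul_lt_mul_of_pos_right h2 hq1
    nlinarith
  rcases le_total z 1 with hz | hz
  · rcases le_total n 3 with h3 | h3
    · -- concave in z, or all terms nonnegative
      have hz2 : z ^ 2 ≤ z := by nlinarith
      rcases le_total n 2 with h4 | h4
      · have : 0 ≤ 2 * n * (2 - n) * z ^ 2 := by
          have : 0 ≤ 2 - n := by linarith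
          positivity
        nlinarith
      · have e1 : 2 * n * (2 - n) * z ≤ 2 * n * (2 - n) * z ^ 2 := by
          have : 0 ≤ 2 * n * (n - 2) := by
            have : 0 ≤ n - 2 := by linarith
            positivity
          nlinarith
        have e2 : 0 ≤ (3 - n) * (1 + n) := by
          have : 0 ≤ 3 - n := by linarith
          positivity
        -- value at z is at least (1-z) * value at 0 + z * value at 1
        nlinarith
    · have hz2 : z ^ 2 ≤ z := by nlinarith
      have e1 : (-2 * n ^ 2 + 5 * n + 1) * z ≤ (-2 * n ^ 2 + 5 * n + 1) * z ^ 2 := by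
        have : 0 ≤ 2 * n ^ 2 - 5 * n - 1 := by nlinarith
        nlinarith
      have e2 : 0 ≤ z * (n - 3) ^ 2 := by positivity
      have e3 : 0 ≤ (1 - z) * (2 * n * (n - 2)) := by
        have : 0 ≤ n - 2 := by linarith
        have : 0 ≤ 1 - z := by linarith
        positivity
      nlinarith
  · rcases le_total n 3 with h3 | h3
    · have e1 : 0 ≤ (n - 1) * (z - 1) ^ 2 := by
        have : 0 ≤ n - 1 := by linarith
        positivity
      have e2 : 0 ≤ (z - 1) * (5 + 8 * n - 3 * n ^ 2) := by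
        have : 0 ≤ 5 + 8 * n - 3 * n ^ 2 := by nlinarith
        have : 0 ≤ z - 1 := by linarith
        positivity
      nlinarith
    · have e1 : 0 ≤ (n - 1) * (n - 3) := by
        have : 0 ≤ n - 1 := by linarith
        have : 0 ≤ n - 3 := by linarith
        positivity
      nlinarith

/-- change of variables -/
lemma tr {X Y s : ℝ} (hX : 1 < X) (hY : 1 < Y) (h1 : s < (2 * s - 1) * X)
    (h2 : s < (2 * s - 1) * Y) : 0 < 1 / X ∧ 1 / X < 1 ∧ 1 / X < Y / X ∧
      1 / X < s / X * (2 - 1 / X) ∧ 1 / X * (Y / X) < s / X * (2 * (Y / X) - 1 / X) := by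
  have hX0 : 0 < X := by linarith
  refine ⟨by positivity, ?_, ?_, ?_, ?_⟩
  · rw [div_lt_one hX0]
    exact hX
  · exact div_lt_div_of_pos_right hY hX0
  · have e : s / X * (2 - 1 / X) - 1 / X = ((2 * s - 1) * X - s) / X ^ 2 := by
      field_simp
      ring
    have : 0 < ((2 * s - 1) * X - s) / X ^ 2 := by
      have : 0 < (2 * s - 1) * X - s := by linarith
      positivity
    linarith
  · have e : s / X * (2 * (Y / X) - 1 / X) - 1 / X * (Y / X) = ((2 * s - 1) * Y - s) / X ^ 2 := by
      field_simp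
      ring
    have : 0 < ((2 * s - 1) * Y - s) / X ^ 2 := by
      have : 0 < (2 * s - 1) * Y - s := by linarith
      positivity
    linarith

lemma conv1 {p p' w w' : ℝ} (hp : p < 1) (hp' : p' < 1) (h : p < w * (2 - p))
    (h' : p' < w' * (2 - p')) : 2 * (p + p') ≤ (w + w') * (4 - p - p') := by
  have e1 : 0 < 2 - p := by linarith
  have e2 : 0 < 2 - p' := by linarith
  have e3 : 0 < 4 - p - p' := by linarith
  have a1 : p / (2 - p) < w := by rwa [div_lt_iff₀ e1]
  have a2 : p' / (2 - p') < w' := by rwa [div_lt_iff₀ e2]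
  have a3 : 2 * (p + p') / (4 - p - p') ≤ p / (2 - p) + p' / (2 - p') := by
    rw [div_add_div _ _ e1.ne' e2.ne', div_le_div_iff₀ e3 (by positivity)]
    nlinarith [sq_nonneg (p - p')]
  have a4 : 2 * (p + p') / (4 - p - p') ≤ w + w' := by linarith
  rwa [div_le_iff₀ e3] at a4

lemma conv2 {p p' r r' w w' : ℝ} (hp0 : 0 < p) (hp0' : 0 < p') (hr : p < r) (hr' : p' < r')
    (h : p * r < w * (2 * r - p)) (h' : p' * r' < w' * (2 * r' - p')) :
    (p + p') * (r + r') ≤ (w + w') * (2 * (r + r') - (p + p')) := by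
  obtain ⟨q, hq⟩ : ∃ q, q = 2 * r - p := ⟨_, rfl⟩
  obtain ⟨q', hq'⟩ : ∃ q', q' = 2 * r' - p' := ⟨_, rfl⟩
  have hr1 : r = (p + q) / 2 := by linarith
  have hr2 : r' = (p' + q') / 2 := by linarith
  have hq0 : 0 < q := by linarith
  have hq0' : 0 < q' := by linarith
  rw [← hq, hr1] at h
  rw [← hq', hr2] at h'
  rw [hr1, hr2]
  have e0 : 2 * ((p + q) / 2 + (p' + q') / 2) - (p + p') = q + q' := by ring
  rw [e0]
  have a1 : p * ((p + q) / 2) / q < w := by rwa [div_lt_iff₀ hq0]
  have a2 : p' * ((p' + q') / 2) / q' < w' := by rwa [div_lt_iff₀ hq0']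
  have a3 : (p + p') * ((p + q) / 2 + (p' + q') / 2) / (q + q') ≤
      p * ((p + q) / 2) / q + p' * ((p' + q') / 2) / q' := by
    rw [div_add_div _ _ hq0.ne' hq0'.ne', div_le_div_iff₀ (by positivity) (by positivity)]
    nlinarith [sq_nonneg (p * q' - p' * q), mul_pos hq0 hq0']
  have a4 : (p + p') * ((p + q) / 2 + (p' + q') / 2) / (q + q') ≤ w + w' := by linarith
  rwa [div_le_iff₀ (by positivity)] at a4

/-- (3b) -/
lemma fail23 {α β a b t X Y s X' Y' s' : ℝ} (hα : 0 < α) (hβ : 0 < β) (hk : α + β ≤ 1)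
    (hab : a + b = α + β)
    (hX : 1 < X) (hY : 1 < Y) (e : 2 * β * (1 - t) * X + (1 - β) * Y = 1 + β)
    (h1 : s < (2 * s - 1) * X) (h2 : s < (2 * s - 1) * Y) (h3 : s < α * X)
    (h4 : s < (a - β) * X + β * Y)
    (hX' : 1 < X') (hY' : 1 < Y') (e' : 2 * β * t * X' + (1 - β) * Y' = 1 + β)
    (h1' : s' < (2 * s' - 1) * X') (h2' : s' < (2 * s' - 1) * Y') (h3' : s' < α * X')
    (h4' : s' < (b - β) * X' + β * Y') : False := by
  have hβ1 : β < 1 := by linarith
  obtain ⟨b1, b2, b3, b4, b5⟩ := tr hX hY h1 h2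
  obtain ⟨b1', b2', b3', b4', b5'⟩ := tr hX' hY' h1' h2'
  have hX0 : 0 < X := by linarith
  have hX0' : 0 < X' := by linarith
  have c1 : 2 * β * (1 - t) + (1 - β) * (Y / X) = (1 + β) * (1 / X) := by
    rw [← e]
    field_simp
  have c1' : 2 * β * t + (1 - β) * (Y' / X') = (1 + β) * (1 / X') := by
    rw [← e']
    field_simp
  have c2 : s / X < α := by rwa [div_lt_iff₀ hX0]
  have c2' : s' / X' < α := by rwa [div_lt_iff₀ hX0']
  have c3 : s / X < (a - β) + β * (Y / X) := by
    rw [div_lt_iff₀ hX0]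
    have : ((a - β) + β * (Y / X)) * X = (a - β) * X + β * Y := by
      field_simp
    rw [this]
    exact h4
  have c3' : s' / X' < (b - β) + β * (Y' / X') := by
    rw [div_lt_iff₀ hX0']
    have : ((b - β) + β * (Y' / X')) * X' = (b - β) * X' + β * Y' := by
      field_simp
    rw [this]
    exact h4'
  generalize 1 / X = p at *
  generalize Y / X = r at *
  generalize s / X = w at *
  generalize 1 / X' = p' at *
  generalize Y' / X' = r' at *
  generalize s' / X' = w' at *
  have d1 := conv1 b2 b2' b4 b4'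
  have d2 := conv2 b1 b1' b3 b3' b5 b5'
  -- the variables n and z
  obtain ⟨n, hn⟩ : ∃ n, n = (1 + β) / (1 - β) := ⟨_, rfl⟩
  have hβ2 : 0 < 1 - β := by linarith
  have hn1 : n * (1 - β) = 1 + β := by
    rw [hn]
    field_simp
  have hn2 : 1 < n := by
    rw [hn, lt_div_iff₀ hβ2]
    linarith
  have hn3 : (1 - β) * (n + 1) = 2 := by linarith
  have hn4 : β * (n + 1) = n - 1 := by linarith
  obtain ⟨z, hz⟩ : ∃ z, z = r + r' - 1 := ⟨_, rfl⟩
  have hy : n * (p + p' - 1) = z := by
    have : (1 + β) * (p + p') = 2 * β + (1 - β) * (r + r') := by linarith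
    have h5 : (1 - β) * (n * (p + p' - 1)) = (1 - β) * z := by
      have : (1 - β) * (n * (p + p' - 1)) = (n * (1 - β)) * (p + p' - 1) := by ring
      rw [this, hn1, hz]
      linarith
    exact mul_left_cancel₀ hβ2.ne' h5
  have hn0 : 0 < n := by linarith
  have hp : p + p' = 1 + z / n := by
    rw [← hy]
    field_simp
    ring
  have hz0 : 0 < z := by
    by_contra hcon
    rw [not_lt] at hcon
    have h6 : z / n < z := by linarith
    rw [div_lt_iff₀ hn0] at h6
    nlinarith
  have hzn : z < n := by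
    have : z / n < 1 := by linarith
    rwa [div_lt_one hn0] at this
  refine core3b n z (w + w') hn2 hz0 hzn ?_ ?_ ?_ ?_
  · have : (w + w') < 2 * (1 - β) := by linarith
    nlinarith
  · have : (w + w') < α + β * z := by
      rw [hz]
      linarith
    have h7 : α + β * z ≤ (1 - β) + β * z := by linarith
    have h8 : (w + w') * (n + 1) < ((1 - β) + β * z) * (n + 1) := by
      apply mul_lt_mul_of_pos_right _ (by linarith)
      linarith
    have h9 : ((1 - β) + β * z) * (n + 1) = (1 - β) * (n + 1) + (β * (n + 1)) * z := by ring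
    rw [h9, hn3, hn4] at h8
    exact h8
  · have h5 : 4 - p - p' = 3 - z / n := by linarith
    rw [h5, hp] at d1
    have h6 := mul_le_mul_of_nonneg_right d1 hn0.le
    have h7 : 2 * (1 + z / n) * n = 2 * (n + z) := by field_simp
    have h8 : (w + w') * (3 - z / n) * n = (w + w') * (3 * n - z) := by field_simp
    rw [h7, h8] at h6
    exact h6
  · have h5 : r + r' = 1 + z := by linarith
    rw [hp, h5] at d2
    have h6 := mul_le_mul_of_nonneg_right d2 hn0.le
    have h7 : (1 + z / n) * (1 + z) * n = (n + z) * (1 + z) := by field_simp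
    have h8 : (w + w') * (2 * (1 + z) - (1 + z / n)) * n =
        (w + w') * (n + (2 * n - 1) * z) := by
      field_simp
      ring
    rw [h7, h8] at h6
    exact h6

end Pool.Agent.H4.Dol
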