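import Pool.Agent.H4.Dol.M2

/-!
Module M2 of the project on MP_70580c_co: choice of the apex, final part.
-/

open Set

namespace Pool.Agent.H4.Dol

lemma poly5 {x : ℝ} (h0 : 2 / 5 ≤ x) (h1 : x ≤ 1) :
    0 ≤ x ^ 5 + 9 * x ^ 4 - 6 * x ^ 3 - 4 * x ^ 2 + 5 * x - 1 := by
  obtain ⟨y, hy⟩ : ∃ y, y = x - 2 / 5 := ⟨_, rfl⟩
  have hx : x = y + 2 / 5 := by linarith
  have hy0 : 0 ≤ y := by linarith
  have hy1 : y ≤ 3 / 5 := by linarith
  have e : x ^ 5 + 9 * x ^ 4 - 6 * x ^ 3 - 4 * x ^ 2 + 5 * x - 1 =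
      677 / 3125 + y * (169 / 125 - 48 / 25 * y) + 10 * y ^ 3 + 11 * y ^ 4 + y ^ 5 := by
    rw [hx]
    ring
  rw [e]
  have h2 : 0 ≤ 169 / 125 - 48 / 25 * y := by linarith
  positivity

/-- (3c) -/
lemma fail3c {α β A t X Y s : ℝ} (hα : 0 < α) (hβ : 0 < β) (hk : α + β ≤ 1)
    (hA : α * β ≤ A) (ht : A + β ^ 2 < β * (1 + β) * t)
    (hX : 1 < X) (hY : 1 < Y) (e : 2 * β * t * X + (1 - β) * Y = 1 + β)
    (h1 : s < (2 * s - 1) * X) (h2 : s < (2 * s - 1) * Y) (h3 : s < α * X) : False := by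
  have hβ1 : β < 1 := by linarith
  obtain ⟨b1, b2, b3, b4, b5⟩ := tr hX hY h1 h2
  have hX0 : 0 < X := by linarith
  have c1 : 2 * β * t + (1 - β) * (Y / X) = (1 + β) * (1 / X) := by
    rw [← e]
    field_simp
  have c2 : s / X < α := by rwa [div_lt_iff₀ hX0]
  generalize 1 / X = p at *
  generalize Y / X = r at *
  generalize s / X = w at *
  have hq : 0 < 2 * r - p := by linarith
  obtain ⟨v, hv⟩ : ∃ v, v = p / (2 * r - p) := ⟨_, rfl⟩
  have hv1 : v * (2 * r - p) = p := by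
    rw [hv]
    field_simp
  have hv0 : 0 < v := by
    rw [hv]
    positivity
  have hvlt : v < 1 := by
    rw [hv, div_lt_one hq]
    linarith
  have hr : 2 * v * r = p * (1 + v) := by linarith
  -- (i)
  have i1 : 2 * α * β + 2 * β ^ 2 < (1 + β) ^ 2 * p - (1 - β ^ 2) * r := by
    have : 2 * (β * (1 + β) * t) = (1 + β) ^ 2 * p - (1 - β ^ 2) * r := by
      have : (1 + β) * (2 * β * t) = (1 + β) * ((1 + β) * p - (1 - β) * r) := by
        rw [← c1]
        ring
      linarith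
    linarith
  -- (ii)
  have i2 : p * (1 + v) < 2 * α := by
    have h4 : p * r * v < w * p := by
      have := mul_lt_mul_of_pos_right b5 hv0
      have e2 : w * (2 * r - p) * v = w * p := by
        rw [mul_assoc, mul_comm (2 * r - p) v, hv1]
      rw [e2] at this
      exact this
    have h5 : r * v < w := by
      by_contra hcon
      rw [not_lt] at hcon
      nlinarith
    linarith
  have i3 : 4 * β ^ 2 * v < p * (2 * (1 + β) ^ 2 * v - (1 - β ^ 2) * (1 + v) -
      2 * β * v * (1 + v)) := by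
    have h4 := mul_lt_mul_of_pos_right i1 (show 0 < 2 * v by positivity)
    have h5 := mul_lt_mul_of_pos_right i2 (show 0 < 2 * β * v by positivity)
    have e3 : ((1 + β) ^ 2 * p - (1 - β ^ 2) * r) * (2 * v) =
        2 * (1 + β) ^ 2 * p * v - (1 - β ^ 2) * (2 * v * r) := by ring
    rw [e3, hr] at h4
    nlinarith
  obtain ⟨S, hS⟩ : ∃ S, S = 2 * (1 + β) ^ 2 * v - (1 - β ^ 2) * (1 + v) -
      2 * β * v * (1 + v) := ⟨_, rfl⟩
  rw [← hS] at i3
  have hS0 : 0 < S := by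
    by_contra hcon
    rw [not_lt] at hcon
    have : 0 < 4 * β ^ 2 * v := by positivity
    nlinarith
  have j1 : 4 * β ^ 2 * v < S := by nlinarith
  have j2 : 4 * β ^ 2 * v * (1 + v) < 2 * (1 - β) * S := by
    have h4 := mul_lt_mul_of_pos_right i3 (show 0 < 1 + v by linarith)
    have h5 : p * S * (1 + v) < 2 * (1 - β) * S := by
      have : p * (1 + v) < 2 * (1 - β) := by linarith
      have := mul_lt_mul_of_pos_right this hS0
      linarith
    linarith
  have k1 : 0 < (1 - v) * (2 * β * v - (1 - β ^ 2)) := by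
    rw [hS] at j1
    nlinarith
  have k2 : 1 - β ^ 2 < 2 * β * v := by
    by_contra hcon
    rw [not_lt] at hcon
    have : 0 < 1 - v := by linarith
    nlinarith
  have k3 : 2 / 5 ≤ β := by
    by_contra hcon
    rw [not_le] at hcon
    nlinarith
  -- second
  have l1 : 4 * β ^ 3 * v < (1 - v) * (2 * β * v - (1 - β) ^ 2 * (1 + β)) := by
    rw [hS] at j2
    nlinarith
  have l2 : 2 * β * v - (1 - β) ^ 2 * (1 + β) ≤ v * (2 * β - (1 - β) ^ 2 * (1 + β)) := by
    have : 0 ≤ (1 - v) * ((1 - β) ^ 2 * (1 + β)) := by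
      have h4 : 0 ≤ 1 - v := by linarith
      have h5 : 0 ≤ 1 - β := by linarith
      positivity
    linarith
  have l3 : 4 * β ^ 3 < (1 - v) * (2 * β - (1 - β) ^ 2 * (1 + β)) := by
    have h4 : 0 ≤ 1 - v := by linarith
    have h5 := mul_le_mul_of_nonneg_left l2 h4
    have h6 : 4 * β ^ 3 * v < (1 - v) * (2 * β - (1 - β) ^ 2 * (1 + β)) * v := by linarith
    exact lt_of_mul_lt_mul_right h6 hv0.le
  have l4 : 0 < 2 * β - (1 - β) ^ 2 * (1 + β) := by
    by_contra hcon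
    rw [not_lt] at hcon
    have h4 : 0 < 1 - v := by linarith
    have : 0 < 4 * β ^ 3 := by positivity
    nlinarith
  have l5 : 8 * β ^ 4 < (β ^ 2 + 2 * β - 1) * (2 * β - (1 - β) ^ 2 * (1 + β)) := by
    have h4 : 2 * β * (1 - v) < β ^ 2 + 2 * β - 1 := by linarith
    have h5 := mul_lt_mul_of_pos_right h4 l4
    have h6 := mul_lt_mul_of_pos_left l3 (show 0 < 2 * β by positivity)
    nlinarith
  have := poly5 k3 hβ1.le
  nlinarith

/-- (3a) -/
lemma fail1 {β A t X Y s : ℝ} (hβ : 0 < β) (ht1 : t ≤ 1)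
    (hA : β * (1 + β) * t ≤ A + β ^ 2) (hXY : X ≤ Y) (hX : 1 < X)
    (e : 2 * β * (t * X + (1 - t) * Y) = 1 + β) (h1 : s < (2 * s - 1) * X)
    (h3 : s < β * Y - A * (Y - X)) : False := by
  obtain ⟨k, hk⟩ : ∃ k, k = Y - X := ⟨_, rfl⟩
  have hk0 : 0 ≤ k := by linarith
  have hY : Y = X + k := by linarith
  subst hY
  have h4 : 0 < 2 * X - 1 := by linarith
  have e1 : β * (2 * X - 1) = 1 - 2 * β * (1 - t) * k := by linarith
  have h5 : X < s * (2 * X - 1) := by linarith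
  have h6 : s * (2 * X - 1) < (β * (X + k) - A * k) * (2 * X - 1) := by
    have : s < β * (X + k) - A * k := by
      have e2 : A * (X + k - X) = A * k := by ring
      rw [e2] at h3
      exact h3
    exact mul_lt_mul_of_pos_right this h4
  have e3 : (β * (X + k) - A * k) * (2 * X - 1) - X =
      k * ((β * t - A) * (2 * X - 1) - β * (1 - t)) := by
    have e4 : β * (X + k) = (1 + β) / 2 + β * t * k := by linarith
    rw [e4]
    have e5 : (1 + β) / 2 * (2 * X - 1) - X = - (β * (1 - t) * k) := by linarith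
    linear_combination e5
  have h7 : (β * t - A) * (2 * X - 1) ≤ β * (1 - t) := by
    rcases le_total (β * t - A) 0 with h8 | h8
    · have : 0 ≤ β * (1 - t) := by
        have : 0 ≤ 1 - t := by linarith
        positivity
      nlinarith
    · have h9 : β * (2 * X - 1) ≤ 1 := by
        have : 0 ≤ 2 * β * (1 - t) * k := by
          have : 0 ≤ 1 - t := by linarith
          positivity
        linarith
      have h10 : β * ((β * t - A) * (2 * X - 1)) ≤ β * (β * (1 - t)) := by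
        have := mul_le_mul_of_nonneg_left h9 h8
        nlinarith
      exact le_of_mul_le_mul_left h10 hβ
  have h11 : k * ((β * t - A) * (2 * X - 1) - β * (1 - t)) ≤ 0 :=
    mul_nonpos_of_nonneg_of_nonpos hk0 (by linarith)
  linarith

lemma fail_small {α β t X Y s : ℝ} (hα : 0 < α) (hβ : 0 < β) (hβ1 : β < 1) (ht0 : 0 ≤ t)
    (ht : α * (2 - t) ≤ t) (hX : 1 < X) (hY : 1 < Y) (e : 2 * β * t * X + (1 - β) * Y = 1 + β)
    (h1 : s < (2 * s - 1) * X) (h3 : s < α * X) : False := by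
  have h4 : t * X < 1 := by
    have : (1 - β) * 1 < (1 - β) * Y := mul_lt_mul_of_pos_left hY (by linarith)
    have : 2 * β * (t * X) < 2 * β * 1 := by linarith
    exact lt_of_mul_lt_mul_left this (by positivity)
  have h5 : 0 < 2 * X - 1 := by linarith
  have h6 : X < s * (2 * X - 1) := by linarith
  have h7 : s * (2 * X - 1) < α * X * (2 * X - 1) := mul_lt_mul_of_pos_right h3 h5
  have h8 : 1 < α * (2 * X - 1) := by
    have : X * 1 < X * (α * (2 * X - 1)) := by linarith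
    exact lt_of_mul_lt_mul_left this (by linarith)
  have h9 : t ≤ t * (α * (2 * X - 1)) := le_mul_of_one_le_right ht0 h8.le
  have h10 : α * (2 * (t * X) - t) < α * (2 - t) := mul_lt_mul_of_pos_left (by linarith) hα
  linarith

/-- `fail_2` and `fail_3` -/
def Fail (α β c t : ℝ) : Prop := ∃ X s : ℝ, 1 < X ∧ 1 < (1 + β - 2 * β * t * X) / (1 - β) ∧
  s < (2 * s - 1) * X ∧ s < (2 * s - 1) * ((1 + β - 2 * β * t * X) / (1 - β)) ∧ s < α * X ∧
  s < (c - β) * X + β * ((1 + β - 2 * β * t * X) / (1 - β))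

lemma Fail.out {α β c t : ℝ} (hβ1 : β < 1) (h : Fail α β c t) : ∃ X Y s : ℝ, 1 < X ∧ 1 < Y ∧
    2 * β * t * X + (1 - β) * Y = 1 + β ∧
    s < (2 * s - 1) * X ∧ s < (2 * s - 1) * Y ∧ s < α * X ∧ s < (c - β) * X + β * Y := by
  obtain ⟨X, s, h1, h2, h3, h4, h5, h6⟩ := h
  refine ⟨X, _, s, h1, h2, ?_, h3, h4, h5, h6⟩
  have : (1 : ℝ) - β ≠ 0 := by linarith
  field_simp
  ring

lemma Fail.intro {α β c t X Y s : ℝ} (hβ1 : β < 1) (h1 : 1 < X) (h2 : 1 < Y)
    (e : 2 * β * t * X + (1 - β) * Y = 1 + β)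
    (h3 : s < (2 * s - 1) * X) (h4 : s < (2 * s - 1) * Y) (h5 : s < α * X)
    (h6 : s < (c - β) * X + β * Y) : Fail α β c t := by
  have hY : Y = (1 + β - 2 * β * t * X) / (1 - β) := by
    rw [eq_div_iff (by linarith)]
    linarith
  subst hY
  exact ⟨X, s, h1, h2, h3, h4, h5, h6⟩

lemma fail_open (α β c : ℝ) : IsOpen {t : ℝ | Fail α β c t} := by
  have h : {t : ℝ | Fail α β c t} = ⋃ X : ℝ, ⋃ s : ℝ, {t : ℝ | 1 < X ∧
      1 < (1 + β - 2 * β * t * X) / (1 - β) ∧ s < (2 * s - 1) * X ∧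
      s < (2 * s - 1) * ((1 + β - 2 * β * t * X) / (1 - β)) ∧ s < α * X ∧
      s < (c - β) * X + β * ((1 + β - 2 * β * t * X) / (1 - β))} := by
    ext t
    simp [Fail]
  rw [h]
  refine isOpen_iUnion fun X => isOpen_iUnion fun s => ?_
  refine isOpen_const.and (IsOpen.and ?_ (isOpen_const.and (IsOpen.and ?_
    (isOpen_const.and ?_))))
  · exact isOpen_lt continuous_const (by fun_prop)
  · exact isOpen_lt continuous_const (by fun_prop)
  · exact isOpen_lt continuous_const (by fun_prop)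

lemma exists_t (α β a b : ℝ) (hα : 0 < α) (hβ : 0 < β) (hk : α + β ≤ 1) (hab : a + b = α + β)
    (ha : α * β ≤ a) (hb : α * β ≤ b) : ∃ t : ℝ, 0 < t ∧ t < 1 ∧ ¬ Fail α β a (1 - t) ∧
      ¬ Fail α β b t ∧ β * (1 + β) * t ≤ a + β ^ 2 ∧ β * (1 + β) * (1 - t) ≤ b + β ^ 2 := by
  have hβ1 : β < 1 := by linarith
  have hα1 : α < 1 := by linarith
  let U : Set ℝ := {t | ¬ Fail α β a (1 - t) ∧ β * (1 + β) * t ≤ a + β ^ 2}
  let V : Set ℝ := {t | ¬ Fail α β b t ∧ β * (1 + β) * (1 - t) ≤ b + β ^ 2}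
  have hU : IsClosed U := by
    refine IsClosed.and ?_ (isClosed_le (by fun_prop) continuous_const)
    have : IsOpen {t : ℝ | Fail α β a (1 - t)} :=
      (fail_open α β a).preimage (f := fun t : ℝ => 1 - t) (by fun_prop)
    exact this.isClosed_compl
  have hV : IsClosed V := by
    refine IsClosed.and ?_ (isClosed_le (by fun_prop) continuous_const)
    exact (fail_open α β b).isClosed_compl
  obtain ⟨t0, ht00, ht01, ht02, ht03⟩ : ∃ t0 : ℝ, 0 < t0 ∧ t0 ≤ 1 / 2 ∧
      α * (1 + t0) ≤ 1 - t0 ∧ (1 + β) * t0 ≤ α + β := by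
    refine ⟨min (1 / 2) (min ((1 - α) / (1 + α)) ((α + β) / (1 + β))), ?_, min_le_left _ _,
      ?_, ?_⟩
    · refine lt_min (by norm_num) (lt_min ?_ (by positivity))
      have : 0 < 1 - α := by linarith
      positivity
    · have h1 : min (1 / 2 : ℝ) (min ((1 - α) / (1 + α)) ((α + β) / (1 + β))) ≤
        (1 - α) / (1 + α) := (min_le_right _ _).trans (min_le_left _ _)
      rw [le_div_iff₀ (by linarith)] at h1
      linarith
    · have h1 : min (1 / 2 : ℝ) (min ((1 - α) / (1 + α)) ((α + β) / (1 + β))) ≤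
        (α + β) / (1 + β) := (min_le_right _ _).trans (min_le_right _ _)
      rw [le_div_iff₀ (by linarith)] at h1
      linarith
  have hU0 : t0 ∈ U := by
    refine ⟨fun hF => ?_, ?_⟩
    · obtain ⟨X, Y, s, h1, h2, e, h3, h4, h5, h6⟩ := hF.out hβ1
      exact fail_small hα hβ hβ1 (by linarith) (by linarith) h1 h2 e h3 h5
    · nlinarith
  have hV0 : 1 - t0 ∈ V := by
    refine ⟨fun hF => ?_, ?_⟩
    · obtain ⟨X, Y, s, h1, h2, e, h3, h4, h5, h6⟩ := hF.out hβ1
      exact fail_small hα hβ hβ1 (by linarith) (by linarith) h1 h2 e h3 h5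
    · nlinarith
  have hcov : Icc t0 (1 - t0) ⊆ U ∪ V := by
    intro t ht
    by_cases hF : Fail α β a (1 - t)
    · right
      obtain ⟨X, Y, s, h1, h2, e, h3, h4, h5, h6⟩ := hF.out hβ1
      refine ⟨fun hF' => ?_, ?_⟩
      · obtain ⟨X', Y', s', h1', h2', e', h3', h4', h5', h6'⟩ := hF'.out hβ1
        exact fail23 hα hβ hk hab h1 h2 e h3 h4 h5 h6 h1' h2' e' h3' h4' h5' h6'
      · by_contra hcon
        rw [not_le] at hcon
        exact fail3c hα hβ hk hb hcon h1 h2 e h3 h4 h5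
    · by_cases h7 : β * (1 + β) * t ≤ a + β ^ 2
      · exact Or.inl ⟨hF, h7⟩
      · right
        rw [not_le] at h7
        refine ⟨fun hF' => ?_, ?_⟩
        · obtain ⟨X', Y', s', h1', h2', e', h3', h4', h5', h6'⟩ := hF'.out hβ1
          exact fail3c hα hβ hk ha h7 h1' h2' e' h3' h4' h5'
        · nlinarith
  have hpc : IsPreconnected (Icc t0 (1 - t0)) := isPreconnected_Icc
  rw [isPreconnected_closed_iff] at hpc
  obtain ⟨t, ht, htU, htV⟩ := hpc U V hU hV hcov ⟨t0, ⟨le_rfl, by linarith⟩, hU0⟩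
    ⟨1 - t0, ⟨by linarith, le_rfl⟩, hV0⟩
  exact ⟨t, by linarith [ht.1], by linarith [ht.2], htU.1, htV.1, htU.2, htV.2⟩

/-- M2 (choice of the apex). -/
theorem lemmaO (α β a b : ℝ) (hα : 0 < α) (hβ : 0 < β) (hk : α + β ≤ 1) (hab : a + b = α + β)
    (ha : α * β ≤ a) (hb : α * β ≤ b) :
    ∃ o1 o2 o3 : ℝ, 0 < o1 ∧ 0 < o2 ∧ 0 < o3 ∧ o1 + o2 + o3 = 1 ∧
      (∀ X Y s : ℝ, 1 < X → 1 < Y → 0 < s → s < 1 → o2 * X + o3 * Y = 1 →
        s < (2 * s - 1) * X → s < (2 * s - 1) * Y →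
        ¬ (s < β * Y - a * (Y - X) ∧ s < β * X + b * (Y - X))) ∧
      (∀ X Y s : ℝ, 1 < X → 1 < Y → 0 < s → s < 1 → o3 * X + o1 * Y = 1 →
        s < (2 * s - 1) * X → s < (2 * s - 1) * Y →
        ¬ (s < α * X ∧ s < (a - β) * X + β * Y)) ∧
      (∀ X Y s : ℝ, 1 < X → 1 < Y → 0 < s → s < 1 → o2 * X + o1 * Y = 1 →
        s < (2 * s - 1) * X → s < (2 * s - 1) * Y →
        ¬ (s < α * X ∧ s < (b - β) * X + β * Y)) := by
  have hβ1 : β < 1 := by linarith
  obtain ⟨t, ht0, ht1, hF2, hF3, hta, htb⟩ := exists_t α β a b hα hβ hk hab ha hb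
  have hβ2 : 0 < 1 + β := by linarith
  refine ⟨(1 - β) / (1 + β), 2 * β * t / (1 + β), 2 * β * (1 - t) / (1 + β), ?_, ?_, ?_, ?_,
    ?_, ?_, ?_⟩
  · have : 0 < 1 - β := by linarith
    positivity
  · positivity
  · have : 0 < 1 - t := by linarith
    positivity
  · field_simp
    ring
  · rintro X Y s hX hY - - e h1 h2 ⟨h3, h4⟩
    have e' : 2 * β * (t * X + (1 - t) * Y) = 1 + β := by
      field_simp at e
      linarith
    rcases le_total X Y with hXY | hXY
    · exact fail1 hβ ht1.le hta hXY hX e' h1 h3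
    · refine fail1 (t := 1 - t) (A := b) (X := Y) (Y := X) hβ (by linarith) htb hXY hY ?_ h2 ?_
      · linarith
      · linarith
  · rintro X Y s hX hY - - e h1 h2 ⟨h3, h4⟩
    refine hF2 (Fail.intro hβ1 hX hY ?_ h1 h2 h3 h4)
    field_simp at e
    linarith
  · rintro X Y s hX hY - - e h1 h2 ⟨h3, h4⟩
    refine hF3 (Fail.intro hβ1 hX hY ?_ h1 h2 h3 h4)
    field_simp at e
    linarith

end Pool.Agent.H4.Dol
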