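import Mathlib
import Pool.Agent.H40.Dol.Defs

/-!
Module M3 of the project on MP_70580c_co: the T-shape.
-/

open Set Pointwise Topology

namespace Pool.Agent.H4.Dol.T

open H40Dol (dt)

lemma dt_add (e x y : ℝ × ℝ) : dt e (x + y) = dt e x + dt e y := by
  simp only [dt, Prod.fst_add, Prod.snd_add]
  ring

lemma dt_sub (e x y : ℝ × ℝ) : dt e (x - y) = dt e x - dt e y := by
  simp only [dt, Prod.fst_sub, Prod.snd_sub]
  ring

lemma dt_smul (e x : ℝ × ℝ) (c : ℝ) : dt e (c • x) = c * dt e x := by
  simp only [dt, Prod.smul_fst, Prod.smul_snd, smul_eq_mul]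
  ring

lemma dt_self (e : ℝ × ℝ) : dt e e = 0 := by
  simp only [dt]
  ring

lemma dt_neg (e x : ℝ × ℝ) : dt e (-x) = - dt e x := by
  simp only [dt, Prod.fst_neg, Prod.snd_neg]
  ring

lemma dt_neg_left (e x : ℝ × ℝ) : dt (-e) x = - dt e x := by
  simp only [dt, Prod.fst_neg, Prod.snd_neg]
  ring

lemma dt_par {e z : ℝ × ℝ} (he : e ≠ 0) (h : dt e z = 0) : ∃ c : ℝ, z = c • e := by
  obtain ⟨e1, e2⟩ := e
  obtain ⟨z1, z2⟩ := z
  simp only [dt] at h
  have hs : 0 < e1 ^ 2 + e2 ^ 2 := by
    rcases eq_or_ne e1 0 with h1 | h1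
    · have h2 : e2 ≠ 0 := by
        intro h2
        apply he
        rw [h1, h2]
        rfl
      positivity
    · positivity
  refine ⟨(e1 * z1 + e2 * z2) / (e1 ^ 2 + e2 ^ 2), ?_⟩
  ext
  · simp only [Prod.smul_fst, smul_eq_mul]
    field_simp
    linear_combination (-e2) * h
  · simp only [Prod.smul_snd, smul_eq_mul]
    field_simp
    linear_combination e1 * h

/-- strictly convex symmetric body -/
structure Body (D : Set (ℝ × ℝ)) : Prop where
  comp : IsCompact D
  sc : StrictConvex ℝ D
  zero : (0 : ℝ × ℝ) ∈ interior D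
  symm : ∀ x ∈ D, -x ∈ D

lemma body_sub {K : Set (ℝ × ℝ)} (hK : IsCompact K) (hc : StrictConvex ℝ K)
    (hi : (interior K).Nonempty) : Body (K - K) := by
  refine ⟨?_, hc.sub hc, ?_, ?_⟩
  · have h := (hK.prod hK).image (f := fun p : (ℝ × ℝ) × (ℝ × ℝ) => p.1 - p.2) (by fun_prop)
    rwa [← Set.sub_image_prod]
  · obtain ⟨x, hx⟩ := hi
    apply subset_interior_sub_left
    exact ⟨x, hx, x, interior_subset hx, sub_self x⟩
  · rintro _ ⟨x, hx, y, hy, rfl⟩
    exact ⟨y, hy, x, hx, (neg_sub x y).symm⟩

variable {D : Set (ℝ × ℝ)}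

lemma Body.front_mem (hD : Body D) {x : ℝ × ℝ} (hx : x ∈ frontier D) : x ∈ D :=
  hD.comp.isClosed.frontier_subset hx

lemma Body.front_not_int {x : ℝ × ℝ} (hx : x ∈ frontier D) : x ∉ interior D := hx.2

/-- strict combinations of points of `D` are interior points -/
lemma Body.comb (hD : Body D) {x y : ℝ × ℝ} (hx : x ∈ D) (hy : y ∈ D) (hxy : x ≠ y) {a b : ℝ}
    (ha : 0 < a) (hb : 0 < b) (hab : a + b = 1) : a • x + b • y ∈ interior D :=
  hD.sc hx hy hxy ha hb hab

lemma Body.comb_int (hD : Body D) {x y : ℝ × ℝ} (hx : x ∈ D) (hy : y ∈ interior D) {a b : ℝ}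
    (ha : 0 < a) (hb : 0 < b) (hab : a + b = 1) : a • x + b • y ∈ interior D := by
  by_cases hxy : x = y
  · subst hxy
    rw [← add_smul, hab, one_smul]
    exact hy
  · exact hD.comb hx (interior_subset hy) hxy ha hb hab

/-- a point of the frontier does not lie strictly between two points of `D` -/
lemma Body.not_between (hD : Body D) {x z e : ℝ × ℝ} (he : e ≠ 0) (hx : x - z ∈ frontier D)
    {s t : ℝ} (hs : 0 < s) (ht : 0 < t) (h1 : x - z + s • e ∈ D) (h2 : x - z - t • e ∈ D) :
    False := by
  have hne : x - z + s • e ≠ x - z - t • e := by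
    intro h
    have h3 : (s + t) • e = 0 := by
      have : (s + t) • e = (x - z + s • e) - (x - z - t • e) := by
        rw [add_smul]
        abel
      rw [this, h, sub_self]
    rcases smul_eq_zero.1 h3 with h4 | h4
    · linarith
    · exact he h4
  have hst : 0 < s + t := by linarith
  have h5 := hD.comb h1 h2 hne (a := t / (s + t)) (b := s / (s + t)) (by positivity)
    (by positivity) (by field_simp; ring)
  have h6 : (t / (s + t)) • (x - z + s • e) + (s / (s + t)) • (x - z - t • e) = x - z := by
    have e1 : (t / (s + t)) • (x - z + s • e) + (s / (s + t)) • (x - z - t • e) =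
        (t / (s + t) + s / (s + t)) • (x - z) + (t / (s + t) * s - s / (s + t) * t) • e := by
      simp only [smul_add, smul_sub, add_smul, sub_smul, smul_smul]
      abel
    rw [e1]
    have e2 : t / (s + t) + s / (s + t) = 1 := by field_simp; ring
    have e3 : t / (s + t) * s - s / (s + t) * t = 0 := by ring
    rw [e2, e3, one_smul, zero_smul, add_zero]
  rw [h6] at h5
  exact hx.2 h5

lemma Body.nb (hD : Body D) {x e : ℝ × ℝ} (he : e ≠ 0) (hx : x ∈ frontier D)
    {s t : ℝ} (hs : 0 < s) (ht : 0 < t) (h1 : x + s • e ∈ D) (h2 : x - t • e ∈ D) : False := by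
  refine hD.not_between (x := x) (z := 0) he (by simpa using hx) hs ht ?_ ?_
  · simpa using h1
  · simpa using h2

lemma Body.ne_zero (hD : Body D) {e : ℝ × ℝ} (he : e ∈ frontier D) : e ≠ 0 := by
  rintro rfl
  exact he.2 hD.zero

/-- the height is positive -/
lemma Body.height_pos (hD : Body D) {e w : ℝ × ℝ} (he : e ∈ frontier D) (hw : w ∈ frontier D)
    (hwe : w - e ∈ frontier D) (h0 : 0 ≤ dt e w) : 0 < dt e w := by
  rcases h0.lt_or_eq with h | h
  · exact h
  exfalso
  obtain ⟨c, rfl⟩ := dt_par (hD.ne_zero he) h.symm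
  have hz := interior_subset hD.zero
  have he0 := hD.ne_zero he
  have heD := hD.front_mem he
  have hcD := hD.front_mem hw
  rcases lt_trichotomy c 0 with hc | hc | hc
  · -- `w - e = (c-1) e`, `w = c e` lies between `0` and `(c-1) e`
    refine hD.nb he0 hw (s := -c) (t := 1) (by linarith) one_pos ?_ ?_
    · rw [neg_smul, add_neg_cancel]
      exact hz
    · rw [one_smul]
      exact hD.front_mem hwe
  · subst hc
    rw [zero_smul] at hw
    exact hw.2 hD.zero
  · rcases lt_trichotomy c 1 with hc1 | hc1 | hc1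
    · refine hD.nb he0 hw (s := 1 - c) (t := c) (by linarith) hc ?_ ?_
      · rw [← add_smul]
        simpa using heD
      · rw [sub_self]
        exact hz
    · subst hc1
      rw [one_smul, sub_self] at hwe
      exact hwe.2 hD.zero
    · refine hD.nb he0 he (s := c - 1) (t := 1) (by linarith) one_pos ?_ ?_
      · have : e + (c - 1) • e = c • e := by
          rw [sub_smul, one_smul]
          abel
        rw [this]
        exact hcD
      · rw [one_smul, sub_self]
        exact hz

/-- uniqueness of `w`, ordered version -/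
lemma Body.unique_le (hD : Body D) {e w w' : ℝ × ℝ} (he : e ∈ frontier D)
    (hw : w ∈ frontier D) (hwe : w - e ∈ frontier D) (h0 : 0 ≤ dt e w)
    (hw' : w' ∈ frontier D) (hwe' : w' - e ∈ frontier D)
    (hle : dt e w ≤ dt e w') : w = w' := by
  have he0 := hD.ne_zero he
  have hpos := hD.height_pos he hw hwe h0
  rcases hle.lt_or_eq with hlt | heq
  · exfalso
    have hpos' : 0 < dt e w' := hpos.trans hlt
    obtain ⟨l, hl⟩ : ∃ l, l = dt e w / dt e w' := ⟨_, rfl⟩
    have hl0 : 0 < l := by
      rw [hl]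
      positivity
    have hl1 : l < 1 := by
      rw [hl, div_lt_one hpos']
      exact hlt
    have hlw : l * dt e w' = dt e w := by
      rw [hl]
      field_simp
    have hm1 : (1 - l) • e + l • w' ∈ interior D := by
      refine hD.comb (hD.front_mem he) (hD.front_mem hw') ?_ (by linarith) hl0 (by ring)
      rintro rfl
      rw [dt_self] at hpos'
      exact lt_irrefl _ hpos'
    have hm2 : (1 - l) • (-e) + l • (w' - e) ∈ interior D := by
      refine hD.comb (hD.symm _ (hD.front_mem he)) (hD.front_mem hwe') ?_ (by linarith) hl0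
        (by ring)
      intro h
      have : w' = 0 := by
        have h3 : w' = (w' - e) + e := by abel
        rw [h3, ← h]
        abel
      exact hD.ne_zero hw' this
    obtain ⟨m, hm⟩ : ∃ m, m = (1 - l) • (-e) + l • (w' - e) := ⟨_, rfl⟩
    have hm12 : (1 - l) • e + l • w' = m + (2 - l) • e := by
      rw [hm]
      have : (2 - l) • e = (1 - l) • e + (1 - l) • e + l • e := by
        rw [← add_smul, ← add_smul]
        congr 1
        ring
      rw [this, smul_sub, smul_neg]
      abel
    rw [hm12] at hm1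
    rw [← hm] at hm2
    have hdm : dt e (w - m) = 0 := by
      rw [hm, dt_sub, dt_add, dt_smul, dt_smul, dt_neg, dt_sub, dt_self]
      linarith
    obtain ⟨c, hc⟩ := dt_par he0 hdm
    have hwm : w = m + c • e := by
      rw [← hc]
      abel
    have hD1 := interior_subset hm1
    have hD2 := interior_subset hm2
    rcases lt_trichotomy c 0 with h1 | h1 | h1
    · refine hD.nb he0 hw (s := -c) (t := 1) (by linarith) one_pos ?_ ?_
      · rw [hwm, neg_smul]
        simpa using hD2
      · rw [one_smul]
        exact hD.front_mem hwe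
    · rw [hwm, h1, zero_smul, add_zero] at hw
      exact hw.2 hm2
    · rcases lt_trichotomy c (2 - l) with h2 | h2 | h2
      · refine hD.nb he0 hw (s := 2 - l - c) (t := c) (by linarith) h1 ?_ ?_
        · have : w + (2 - l - c) • e = m + (2 - l) • e := by
            rw [hwm, sub_smul (2 - l) c e]
            abel
          rw [this]
          exact hD1
        · rw [hwm]
          simpa using hD2
      · rw [hwm, h2] at hw
        exact hw.2 hm1
      · -- `w - e` lies between `m` and `w`
        have h3 : 0 < c - 1 := by linarith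
        refine hD.nb he0 hwe (s := 1) (t := c - 1) one_pos h3 ?_ ?_
        · rw [one_smul]
          simpa using hD.front_mem hw
        · have : w - e - (c - 1) • e = m := by
            rw [hwm, sub_smul, one_smul]
            abel
          rw [this]
          exact hD2
  · have hd : dt e (w' - w) = 0 := by
      rw [dt_sub, heq, sub_self]
    obtain ⟨c, hc⟩ := dt_par he0 hd
    have hw'c : w' = w + c • e := by
      rw [← hc]
      abel
    rcases lt_trichotomy c 0 with h1 | h1 | h1
    · exfalso
      refine hD.nb he0 hw' (s := -c) (t := 1) (by linarith) one_pos ?_ ?_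
      · rw [hw'c, neg_smul]
        simpa using hD.front_mem hw
      · rw [one_smul]
        exact hD.front_mem hwe'
    · rw [hw'c, h1, zero_smul, add_zero]
    · exfalso
      refine hD.nb he0 hw (s := c) (t := 1) h1 one_pos ?_ ?_
      · rw [← hw'c]
        exact hD.front_mem hw'
      · rw [one_smul]
        exact hD.front_mem hwe

lemma Body.unique (hD : Body D) {e w w' : ℝ × ℝ} (he : e ∈ frontier D)
    (hw : w ∈ frontier D) (hwe : w - e ∈ frontier D) (h0 : 0 ≤ dt e w)
    (hw' : w' ∈ frontier D) (hwe' : w' - e ∈ frontier D) (h0' : 0 ≤ dt e w') : w = w' := by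
  rcases le_total (dt e w) (dt e w') with h | h
  · exact hD.unique_le he hw hwe h0 hw' hwe' h
  · exact (hD.unique_le he hw' hwe' h0' hw hwe h).symm

/-- uniqueness of the pair -/
lemma pair_unique {K : Set (ℝ × ℝ)} (hc : StrictConvex ℝ K) {x y x' y' : ℝ × ℝ}
    (hx : x ∈ K) (hy : y ∈ K) (hx' : x' ∈ K) (hy' : y' ∈ K) (h : x - y = x' - y')
    (hf : x - y ∈ frontier (K - K)) : x = x' ∧ y = y' := by
  have hxx : x = x' := by
    by_contra hne
    have h1 : (1 / 2 : ℝ) • x + (1 / 2 : ℝ) • x' ∈ interior K :=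
      hc hx hx' hne (by norm_num) (by norm_num) (by norm_num)
    have h2 : (1 / 2 : ℝ) • y + (1 / 2 : ℝ) • y' ∈ K :=
      hc.convex hy hy' (by norm_num) (by norm_num) (by norm_num)
    have h3 : ((1 / 2 : ℝ) • x + (1 / 2 : ℝ) • x') - ((1 / 2 : ℝ) • y + (1 / 2 : ℝ) • y') ∈
        interior (K - K) := subset_interior_sub_left ⟨_, h1, _, h2, rfl⟩
    have h4 : ((1 / 2 : ℝ) • x + (1 / 2 : ℝ) • x') - ((1 / 2 : ℝ) • y + (1 / 2 : ℝ) • y') =
        x - y := by
      have : ((1 / 2 : ℝ) • x + (1 / 2 : ℝ) • x') - ((1 / 2 : ℝ) • y + (1 / 2 : ℝ) • y') =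
          (1 / 2 : ℝ) • (x - y) + (1 / 2 : ℝ) • (x' - y') := by
        rw [smul_sub, smul_sub]
        abel
      rw [this, ← h, ← add_smul]
      norm_num
    rw [h4] at h3
    exact hf.2 h3
  refine ⟨hxx, ?_⟩
  rw [hxx] at h
  exact sub_right_injective h

end Pool.Agent.H4.Dol.T
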