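import Pool.Agent.H4.Dol.M3

/-!
Module M3 of the project on MP_70580c_co: the T-shape, final part.
-/

open Set Pointwise Topology

namespace Pool.Agent.H4.Dol.T

open H40Dol (dt)

variable {D : Set (ℝ × ℝ)}

lemma Body.nhds (hD : Body D) : D ∈ 𝓝 (0 : ℝ × ℝ) := mem_interior_iff_mem_nhds.1 hD.zero

/-- the unit vector -/
noncomputable def vv (θ : ℝ) : ℝ × ℝ := (Real.cos θ, Real.sin θ)

lemma vv_ne (θ : ℝ) : vv θ ≠ 0 := by
  intro h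
  have h1 : Real.cos θ = 0 := congrArg Prod.fst h
  have h2 : Real.sin θ = 0 := congrArg Prod.snd h
  have := Real.sin_sq_add_cos_sq θ
  rw [h1, h2] at this
  norm_num at this

lemma vv_cont : Continuous vv := Real.continuous_cos.prodMk Real.continuous_sin

lemma Body.gauge_pos' (hD : Body D) {x : ℝ × ℝ} (hx : x ≠ 0) : 0 < gauge D x := by
  rw [gauge_pos (absorbent_nhds_zero hD.nhds)
    (NormedSpace.isVonNBounded_iff ℝ |>.2 hD.comp.isBounded)]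
  exact hx

lemma Body.gauge_cont (hD : Body D) : Continuous (gauge D) :=
  continuous_gauge hD.sc.convex hD.nhds

lemma Body.front_iff (hD : Body D) (x : ℝ × ℝ) : x ∈ frontier D ↔ gauge D x = 1 :=
  (gauge_eq_one_iff_mem_frontier hD.sc.convex hD.nhds).symm

lemma Body.gauge_neg' (hD : Body D) (x : ℝ × ℝ) : gauge D (-x) = gauge D x :=
  gauge_neg hD.symm x

/-- the point of the frontier with angle `θ` -/
noncomputable def EEp (D : Set (ℝ × ℝ)) (θ : ℝ) : ℝ × ℝ := (gauge D (vv θ))⁻¹ • vv θ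

lemma Body.EEp_cont (hD : Body D) : Continuous (EEp D) := by
  have h1 : Continuous (fun θ => (gauge D (vv θ))⁻¹) :=
    (hD.gauge_cont.comp vv_cont).inv₀ (fun θ => (hD.gauge_pos' (vv_ne θ)).ne')
  exact h1.smul vv_cont

lemma Body.EEp_front (hD : Body D) (θ : ℝ) : EEp D θ ∈ frontier D := by
  rw [hD.front_iff, EEp]
  have h := hD.gauge_pos' (vv_ne θ)
  rw [gauge_smul_of_nonneg (by positivity), smul_eq_mul]
  field_simp

lemma Body.EEp_pi (hD : Body D) (θ : ℝ) : EEp D (θ + Real.pi) = - EEp D θ := by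
  have h : vv (θ + Real.pi) = - vv θ := by
    ext
    · simp [vv, Real.cos_add_pi]
    · simp [vv, Real.sin_add_pi]
  rw [EEp, EEp, h, hD.gauge_neg', smul_neg]

lemma Body.EEp_dt (hD : Body D) (θ φ : ℝ) (h : 0 ≤ Real.sin φ) :
    0 ≤ dt (EEp D θ) (EEp D (θ + φ)) := by
  have h1 : dt (vv θ) (vv (θ + φ)) = Real.sin φ := by
    simp only [dt, vv, Real.sin_add, Real.cos_add]
    have := Real.sin_sq_add_cos_sq θ
    linear_combination (Real.sin φ) * this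
  have h2 : dt (EEp D θ) (EEp D (θ + φ)) =
      (gauge D (vv θ))⁻¹ * (gauge D (vv (θ + φ)))⁻¹ * dt (vv θ) (vv (θ + φ)) := by
    simp only [EEp, dt, Prod.smul_fst, Prod.smul_snd, smul_eq_mul]
    ring
  rw [h2, h1]
  have h3 := hD.gauge_pos' (vv_ne θ)
  have h4 := hD.gauge_pos' (vv_ne (θ + φ))
  positivity

/-- existence of `w` -/
lemma Body.exists_w (hD : Body D) (θ : ℝ) : ∃ w, w ∈ frontier D ∧ w - EEp D θ ∈ frontier D ∧
    0 ≤ dt (EEp D θ) w := by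
  have hF : Continuous (fun φ : ℝ => gauge D (EEp D (θ + φ) - EEp D θ)) :=
    hD.gauge_cont.comp ((hD.EEp_cont.comp (continuous_const.add continuous_id)).sub
      continuous_const)
  have h0 : gauge D (EEp D (θ + 0) - EEp D θ) = 0 := by
    rw [add_zero, sub_self, gauge_zero]
  have h1 : gauge D (EEp D (θ + Real.pi) - EEp D θ) = 2 := by
    have e : EEp D (θ + Real.pi) - EEp D θ = -((2 : ℝ) • EEp D θ) := by
      rw [hD.EEp_pi, two_smul]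
      abel
    rw [e, hD.gauge_neg', gauge_smul_of_nonneg (by norm_num),
      (hD.front_iff _).1 (hD.EEp_front θ)]
    norm_num
  have h2 := intermediate_value_Icc Real.pi_pos.le (hF.continuousOn (s := Icc 0 Real.pi))
  obtain ⟨φ, hφ, h3⟩ := h2 (show (1 : ℝ) ∈ Icc (gauge D (EEp D (θ + 0) - EEp D θ))
    (gauge D (EEp D (θ + Real.pi) - EEp D θ)) by
      rw [h0, h1]
      exact ⟨by norm_num, by norm_num⟩)
  refine ⟨EEp D (θ + φ), hD.EEp_front _, (hD.front_iff _).2 h3, hD.EEp_dt θ φ ?_⟩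
  exact Real.sin_nonneg_of_nonneg_of_le_pi hφ.1 hφ.2

/-- the configurations at `e` -/
def Cf (K : Set (ℝ × ℝ)) (e : ℝ × ℝ) (c : (ℝ × ℝ) × (ℝ × ℝ) × (ℝ × ℝ) × (ℝ × ℝ)) : Prop :=
  c.1 ∈ K ∧ c.2.1 ∈ K ∧ c.2.2.1 ∈ K ∧ c.2.2.2 ∈ K ∧
    (c.1 - c.2.1) - (c.2.2.1 - c.2.2.2) = e ∧ c.1 - c.2.1 ∈ frontier (K - K) ∧
    c.2.2.1 - c.2.2.2 ∈ frontier (K - K) ∧ 0 ≤ dt e (c.1 - c.2.1)

lemma exists_cf {K : Set (ℝ × ℝ)} (hD : Body (K - K)) (θ : ℝ) :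
    ∃ c, Cf K (EEp (K - K) θ) c := by
  obtain ⟨w, hw, hwe, h0⟩ := hD.exists_w θ
  obtain ⟨x1, hx1, y1, hy1, h1⟩ := hD.front_mem hw
  obtain ⟨x2, hx2, y2, hy2, h2⟩ := hD.front_mem hwe
  change x1 - y1 = w at h1
  change x2 - y2 = w - EEp (K - K) θ at h2
  refine ⟨(x1, y1, x2, y2), hx1, hy1, hx2, hy2, ?_, ?_, ?_, ?_⟩
  · change x1 - y1 - (x2 - y2) = _
    rw [h1, h2]
    abel
  · change x1 - y1 ∈ _
    rwa [h1]
  · change x2 - y2 ∈ _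
    rwa [h2]
  · change 0 ≤ dt _ (x1 - y1)
    rwa [h1]

lemma cf_unique {K : Set (ℝ × ℝ)} (hD : Body (K - K)) (hc : StrictConvex ℝ K) {e : ℝ × ℝ}
    (he : e ∈ frontier (K - K)) {c c' : (ℝ × ℝ) × (ℝ × ℝ) × (ℝ × ℝ) × (ℝ × ℝ)} (h : Cf K e c)
    (h' : Cf K e c') : c = c' := by
  obtain ⟨x1, y1, x2, y2⟩ := c
  obtain ⟨x1', y1', x2', y2'⟩ := c'
  obtain ⟨a1, a2, a3, a4, a5, a6, a7, a8⟩ := h
  obtain ⟨b1, b2, b3, b4, b5, b6, b7, b8⟩ := h'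
  simp only at a1 a2 a3 a4 a5 a6 a7 a8 b1 b2 b3 b4 b5 b6 b7 b8
  have e1 : x1 - y1 - e = x2 - y2 := by
    rw [← a5]
    abel
  have e2 : x1' - y1' - e = x2' - y2' := by
    rw [← b5]
    abel
  have h1 : x1 - y1 = x1' - y1' := by
    refine hD.unique he a6 ?_ a8 b6 ?_ b8
    · rw [e1]
      exact a7
    · rw [e2]
      exact b7
  have h2 : x2 - y2 = x2' - y2' := by
    rw [← e1, ← e2, h1]
  obtain ⟨c1, c2⟩ := pair_unique hc a1 a2 b1 b2 h1 a6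
  obtain ⟨c3, c4⟩ := pair_unique hc a3 a4 b3 b4 h2 a7
  rw [c1, c2, c3, c4]

lemma cf_neg {K : Set (ℝ × ℝ)} (hD : Body (K - K)) {e : ℝ × ℝ}
    {x1 y1 x2 y2 : ℝ × ℝ} (h : Cf K e (x1, y1, x2, y2)) :
    Cf K (-e) (y1, x1, y2, x2) ∧ dt (-e) (x2 - x1) = - dt e (y2 - y1) := by
  obtain ⟨a1, a2, a3, a4, a5, a6, a7, a8⟩ := h
  simp only at a1 a2 a3 a4 a5 a6 a7 a8
  have hfn : ∀ x, x ∈ frontier (K - K) → -x ∈ frontier (K - K) := by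
    intro x hx
    rw [hD.front_iff] at hx ⊢
    rw [hD.gauge_neg', hx]
  refine ⟨⟨a2, a1, a4, a3, ?_, ?_, ?_, ?_⟩, ?_⟩
  · change y1 - x1 - (y2 - x2) = -e
    rw [← a5]
    abel
  · change y1 - x1 ∈ _
    rw [← neg_sub x1 y1]
    exact hfn _ a6
  · change y2 - x2 ∈ _
    rw [← neg_sub x2 y2]
    exact hfn _ a7
  · change 0 ≤ dt (-e) (y1 - x1)
    rw [← neg_sub x1 y1, dt_neg, dt_neg_left, neg_neg]
    exact a8
  · have e1 : x2 - x1 = (y2 - y1) - e := by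
      rw [← a5]
      abel
    rw [e1, dt_neg_left, dt_sub, dt_self, sub_zero]

lemma dt_cont {Y : Type*} [TopologicalSpace Y] {f g : Y → ℝ × ℝ} (hf : Continuous f)
    (hg : Continuous g) : Continuous (fun y => dt (f y) (g y)) := by
  simp only [dt]
  exact ((continuous_fst.comp hf).mul (continuous_snd.comp hg)).sub
    ((continuous_snd.comp hf).mul (continuous_fst.comp hg))

/-- the set of configurations with the sign of `H` prescribed -/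
def GG (K : Set (ℝ × ℝ)) (c : ℝ) : Set (ℝ × ((ℝ × ℝ) × (ℝ × ℝ) × (ℝ × ℝ) × (ℝ × ℝ))) :=
  {p | p.1 ∈ Icc 0 Real.pi ∧ Cf K (EEp (K - K) p.1) p.2 ∧
    0 ≤ c * dt (EEp (K - K) p.1) (p.2.2.2.2 - p.2.2.1)}

lemma GG_compact {K : Set (ℝ × ℝ)} (hK : IsCompact K) (hD : Body (K - K)) (c : ℝ) :
    IsCompact (GG K c) := by
  have h1 : IsCompact (Icc (0 : ℝ) Real.pi ×ˢ (K ×ˢ (K ×ˢ (K ×ˢ K)))) :=
    isCompact_Icc.prod (hK.prod (hK.prod (hK.prod hK)))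
  have hE : Continuous (fun p : ℝ × ((ℝ × ℝ) × (ℝ × ℝ) × (ℝ × ℝ) × (ℝ × ℝ)) =>
      EEp (K - K) p.1) := hD.EEp_cont.comp continuous_fst
  have hcl : IsClosed {p : ℝ × ((ℝ × ℝ) × (ℝ × ℝ) × (ℝ × ℝ) × (ℝ × ℝ)) |
      (p.2.1 - p.2.2.1) - (p.2.2.2.1 - p.2.2.2.2) = EEp (K - K) p.1 ∧
      p.2.1 - p.2.2.1 ∈ frontier (K - K) ∧ p.2.2.2.1 - p.2.2.2.2 ∈ frontier (K - K) ∧
      0 ≤ dt (EEp (K - K) p.1) (p.2.1 - p.2.2.1) ∧
      0 ≤ c * dt (EEp (K - K) p.1) (p.2.2.2.2 - p.2.2.1)} := by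
    refine IsClosed.and ?_ (IsClosed.and ?_ (IsClosed.and ?_ (IsClosed.and ?_ ?_)))
    · exact isClosed_eq (by fun_prop) hE
    · exact isClosed_frontier.preimage (by fun_prop)
    · exact isClosed_frontier.preimage (by fun_prop)
    · exact isClosed_le continuous_const (dt_cont hE (by fun_prop))
    · exact isClosed_le continuous_const (continuous_const.mul (dt_cont hE (by fun_prop)))
  have h2 := h1.inter_right hcl
  have h3 : GG K c = (Icc (0 : ℝ) Real.pi ×ˢ (K ×ˢ (K ×ˢ (K ×ˢ K)))) ∩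
      {p : ℝ × ((ℝ × ℝ) × (ℝ × ℝ) × (ℝ × ℝ) × (ℝ × ℝ)) |
      (p.2.1 - p.2.2.1) - (p.2.2.2.1 - p.2.2.2.2) = EEp (K - K) p.1 ∧
      p.2.1 - p.2.2.1 ∈ frontier (K - K) ∧ p.2.2.2.1 - p.2.2.2.2 ∈ frontier (K - K) ∧
      0 ≤ dt (EEp (K - K) p.1) (p.2.1 - p.2.2.1) ∧
      0 ≤ c * dt (EEp (K - K) p.1) (p.2.2.2.2 - p.2.2.1)} := by
    ext p
    constructor
    · rintro ⟨h1, ⟨h2, h3, h4, h5, h6, h7, h8, h9⟩, h10⟩
      exact ⟨⟨h1, h2, h3, h4, h5⟩, h6, h7, h8, h9, h10⟩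
    · rintro ⟨⟨h1, h2, h3, h4, h5⟩, h6, h7, h8, h9, h10⟩
      exact ⟨h1, ⟨h2, h3, h4, h5, h6, h7, h8, h9⟩, h10⟩
  rw [h3]
  exact h2

/-- M3 (T-shape): three sides on the boundary of `K - K`, with the translates aligned. -/
theorem tshape (K : Set (ℝ × ℝ)) (hK : IsCompact K) (hc : StrictConvex ℝ K)
    (hi : (interior K).Nonempty) :
    ∃ e w x0 y0 x1 y1 x2 y2 : ℝ × ℝ, ∃ α : ℝ,
      x0 ∈ K ∧ y0 ∈ K ∧ x1 ∈ K ∧ y1 ∈ K ∧ x2 ∈ K ∧ y2 ∈ K ∧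
      x0 - y0 = e ∧ x1 - y1 = w ∧ x2 - y2 = w - e ∧
      e ∈ frontier (K - K) ∧ w ∈ frontier (K - K) ∧ w - e ∈ frontier (K - K) ∧
      0 < dt e w ∧ y2 - y1 = α • e := by
  have hD := body_sub hK hc hi
  have hcl : ∀ c : ℝ, IsClosed (Prod.fst '' GG K c) := fun c =>
    ((GG_compact hK hD c).image continuous_fst).isClosed
  have hpc : IsPreconnected (Icc (0 : ℝ) Real.pi) := isPreconnected_Icc
  rw [isPreconnected_closed_iff] at hpc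
  -- both signs occur
  have hboth : (Icc (0 : ℝ) Real.pi ∩ Prod.fst '' GG K 1).Nonempty ∧
      (Icc (0 : ℝ) Real.pi ∩ Prod.fst '' GG K (-1)).Nonempty := by
    obtain ⟨⟨x1, y1, x2, y2⟩, hcf⟩ := exists_cf hD 0
    obtain ⟨hcf', hH⟩ := cf_neg hD hcf
    have hpi : EEp (K - K) Real.pi = - EEp (K - K) 0 := by
      have := hD.EEp_pi 0
      rwa [zero_add] at this
    rw [← hpi] at hcf' hH
    have m0 : (0 : ℝ) ∈ Icc (0 : ℝ) Real.pi := ⟨le_rfl, Real.pi_pos.le⟩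
    have mp : Real.pi ∈ Icc (0 : ℝ) Real.pi := ⟨Real.pi_pos.le, le_rfl⟩
    rcases le_total 0 (dt (EEp (K - K) 0) (y2 - y1)) with h | h
    · refine ⟨⟨0, m0, ⟨0, (x1, y1, x2, y2)⟩, ⟨m0, hcf, ?_⟩, rfl⟩,
        ⟨Real.pi, mp, ⟨Real.pi, (y1, x1, y2, x2)⟩, ⟨mp, hcf', ?_⟩, rfl⟩⟩
      · change 0 ≤ 1 * dt (EEp (K - K) 0) (y2 - y1)
        linarith
      · change 0 ≤ (-1) * dt (EEp (K - K) Real.pi) (x2 - x1)
        linarith
    · refine ⟨⟨Real.pi, mp, ⟨Real.pi, (y1, x1, y2, x2)⟩, ⟨mp, hcf', ?_⟩, rfl⟩,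
        ⟨0, m0, ⟨0, (x1, y1, x2, y2)⟩, ⟨m0, hcf, ?_⟩, rfl⟩⟩
      · change 0 ≤ 1 * dt (EEp (K - K) Real.pi) (x2 - x1)
        linarith
      · change 0 ≤ (-1) * dt (EEp (K - K) 0) (y2 - y1)
        linarith
  have hcov : Icc (0 : ℝ) Real.pi ⊆ Prod.fst '' GG K 1 ∪ Prod.fst '' GG K (-1) := by
    intro θ hθ
    obtain ⟨⟨x1, y1, x2, y2⟩, hcf⟩ := exists_cf hD θ
    rcases le_total 0 (dt (EEp (K - K) θ) (y2 - y1)) with h | h
    · left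
      refine ⟨⟨θ, (x1, y1, x2, y2)⟩, ⟨hθ, hcf, ?_⟩, rfl⟩
      change 0 ≤ 1 * dt (EEp (K - K) θ) (y2 - y1)
      linarith
    · right
      refine ⟨⟨θ, (x1, y1, x2, y2)⟩, ⟨hθ, hcf, ?_⟩, rfl⟩
      change 0 ≤ (-1) * dt (EEp (K - K) θ) (y2 - y1)
      linarith
  obtain ⟨θ, -, ⟨⟨θ1, c1⟩, ⟨-, g1, g2⟩, h1⟩, ⟨⟨θ2, c2⟩, ⟨-, g3, g4⟩, h2⟩⟩ :=
    hpc _ _ (hcl 1) (hcl (-1)) hcov hboth.1 hboth.2
  simp only at h1 h2
  subst h1
  subst h2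
  have hcc : c1 = c2 := cf_unique hD hc (hD.EEp_front θ2) g1 g3
  subst hcc
  obtain ⟨x1, y1, x2, y2⟩ := c1
  simp only at g1 g2 g3 g4
  have hH : dt (EEp (K - K) θ2) (y2 - y1) = 0 := by linarith
  obtain ⟨a1, a2, a3, a4, a5, a6, a7, a8⟩ := g1
  simp only at a1 a2 a3 a4 a5 a6 a7 a8
  have hef := hD.EEp_front θ2
  obtain ⟨α, hα⟩ := dt_par (hD.ne_zero hef) hH
  obtain ⟨x0, hx0, y0, hy0, h0⟩ := hD.front_mem hef
  have e1 : x1 - y1 - EEp (K - K) θ2 = x2 - y2 := by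
    rw [← a5]
    abel
  refine ⟨EEp (K - K) θ2, x1 - y1, x0, y0, x1, y1, x2, y2, α, hx0, hy0, a1, a2, a3, a4, h0, rfl,
    e1.symm, hef, a6, ?_, ?_, hα⟩
  · rw [e1]
    exact a7
  · refine hD.height_pos hef a6 ?_ a8
    rw [e1]
    exact a7

end Pool.Agent.H4.Dol.T
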